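import Pool.Agent.K34TH.Near
import Pool.Agent.Results.MP_dd1803_nt.EllipticScaledImages

/-!
# MP_dd1803_nt: Zilber-Pink and Mordell-Lang in split semiabelian varieties for all but finitely many
members of one-parameter families

Let `E_g : y² = x³ + A_g x + B_g`, `g = 1, …, r`, be elliptic curves over the complex numbers and let
`𝔖 = ∏_g E_g^(n_g) × G_m^q` (`Amb`), with the coordinates `x (P_{g,i})` and `u_j` of its points `(P, u)`.

**Families.** Let `K ⊂ ℂ` be a countable field which contains the `A_g`, `B_g`. We consider families `X_t`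
of subsets of `𝔖` with one parameter `t`, given by
* a family `Y_t ⊆ P^N` of projective algebraic sets, defined by forms `G l` with coefficients in `K[t]`,
* for every coordinate `s` a quotient `a_s / b_s` of forms of the same degree with coefficients in `K[t]`,
* polynomials `P_s ∈ ℤ[t]` and a prime number `β`.
For an integer `t` the set `X_t ⊆ 𝔖` consists of the points with
`c_{g,i} x (P_{g,i}) = (a_{g,i} / b_{g,i}) (t, y)` and `c_j u_j = (a_j / b_j) (t, y)` for a point `y` of
`Y_t`, where `c_{g,i}` is any `β`-th root of `|P_{g,i} (t)|` and `c_j = |P_j (t)|`.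

The family degenerates at rational numbers `ρ_0, …, ρ_L`, where `L = (q - 1) 2^q + 1` (so there are two
degenerate members if `q ≤ 1`, for instance for products of elliptic curves):
* no point of `Y_ρ` lies on `m + 1` of the sets `a_s b_s = 0`, for `t = ρ = ρ_l` (`IsFamily`; there is no
  condition on the other members), and
* the `P_s` vanish at `ρ_l`, and the orders `e_{l,s}` satisfy `GoodExpF`: for the elliptic coordinates they
  are at least `β` and not divisible by `β`, and distinct modulo `β` for given `l`, and for the torus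
  coordinates any `q` of the `L + 1` vectors of orders are linearly independent.
An example are `P_{g,i} = ∏_l (t - ρ_l)^(β + 1 + σ(g,i)) Q_{g,i}` and `P_j = ∏_l (t - ρ_l)^((l + 1)^j) Q_j`
with integers `ρ_l`, an injective map `σ` with values below `β - 1` and arbitrary polynomials `Q_s` which
do not vanish at the `ρ_l` (`Pool.Agent.K34TH.goodExpF_vandermonde`).

**Theorem.** Let `Γ` be a finitely generated group of points of `𝔖` over `K`. For all primes `β > M`
(where `M` depends on `Y_t`, the `a_s / b_s`, the `ρ_l` and `Γ`) and all polynomials `P_s` with good orders at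
the `ρ_l`, for ALL BUT FINITELY MANY integers `t` the set `X_t` has no atypical intersection with translates
`Z` of algebraic subgroups of `𝔖` by points of the division hull of `Γ`, in particular with torsion
cosets: every irreducible constructible subset of `X_t ∩ Z` has dimension at most `m - codim Z`, and every
point of `X_t ∩ Z` has transcendence degree at most `m - codim Z` over `K`. In particular `X_t` does not
meet the `Z` of codimension larger than `m`, and if `X_t` is of dimension `m` then no component of `X_t` of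
dimension `m` has an atypical subvariety.

The starting result `EllipticScaledImages` treats a fixed set `Y` and products of powers of `t, t + 1, …`,
and has up to `O (√H)` exceptions `t ≤ H`, as has `MP_28d749_ag.TropicalFamilies` for elliptic schemes. For
tori and for products of modular curves there are starting results with finitely many exceptional
members (`MP_c95b3b_ag.TropicallyGenericFamilies`, `MP_a325a5_ag.FinitelyGeneratedFields`); there the
conditions at a place are homogeneous in the valuation of `t - ρ_l`. In the presence of elliptic factors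
they are not: multiplicities divisible by `β` are useless, since multiplication by the residue
characteristic shifts the valuations of the points of an elliptic curve in the kernel of reduction.

Proof. If all the large primes divide `(t - ρ_l) den(ρ_l)` with multiplicities divisible by `β`, then it is
`u z ^ β` with one of finitely many `u`. By Thue's theorem (`Pool.Agent.K34TH.thue`, from Roth's theorem)
this happens for two different `l` for finitely many `t` only (`Pool.Agent.K34TH.two_bad`). For the other
`t` there are places with large residue characteristics `p_l` at which `t` is near to `ρ_l`, for `L` of the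
`L + 1` indices `l`, such that the valuation of `t - ρ_l` is not divisible by `β`. At these places the
certificates (Nullstellensatz) for the position of the divisors on `Y_ρ`, `ρ = ρ_l`, hold for `Y_t` as well
(`Pool.Agent.K34TH.goodF`), and the local arguments of `EllipticScaledImages` apply (`Pool.Agent.K34TH.mainF`).
-/

set_option autoImplicit false

namespace Pool.Agent.Results.MP_dd1803_nt.FinitelyManyMembers

open MvPolynomial Pool.Agent.W466.EP Pool.Agent.W282.ZP Pool.Agent.W282.LF Pool.Agent.K34TH
open Pool.Agent.Results.MP_dd1803_nt.EllipticScaledImages (Amb Ind ev OnY IsScaling Special coords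
  NoAtypical scaled)

variable {r : ℕ} {A B : Fin r → ℂ} {n : Fin r → ℕ} {q : ℕ}

/-- The form over `K` which is the member at `t` of a form `P` with coefficients in `K[t]`. -/
noncomputable def at' {K : Subfield ℂ} {N : ℕ} (t : K)
    (P : MvPolynomial (Fin (N + 1)) (Polynomial K)) : MvPolynomial (Fin (N + 1)) K :=
  MvPolynomial.map (Polynomial.evalRingHom t) P

/-- The data of the family `Y_t` with its maps: homogeneous forms, and no point of `Y_ρ` lies on
`m + 1` of the divisors `a_s b_s = 0`, for the given rational numbers `ρ = ρ_l`. -/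
structure IsFamily {K : Subfield ℂ} {N : ℕ} {κ : Type*}
    (G : κ → MvPolynomial (Fin (N + 1)) (Polynomial K))
    (a b : Ind n q → MvPolynomial (Fin (N + 1)) (Polynomial K)) (dg : Ind n q → ℕ) (m : ℕ)
    {Λ : ℕ} (ρ : Fin Λ → ℚ) : Prop where
  hG : ∀ l, ∃ e, (G l).IsHomogeneous e
  ha : ∀ s, (a s).IsHomogeneous (dg s)
  hb : ∀ s, (b s).IsHomogeneous (dg s)
  hpos : ∀ l, ∀ I : Finset (Ind n q), I.card = m + 1 →
    ∀ y, OnY (fun i => at' (ρ l : K) (G i)) y →
      ∃ s ∈ I, ev y (at' (ρ l : K) (a s)) * ev y (at' (ρ l : K) (b s)) ≠ 0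

/-- Zilber-Pink and Mordell-Lang with no atypical intersections for all but finitely many members of
one-parameter families of subsets of `∏_g E_g^(n_g) × G_m^q`. -/
theorem result {κ : Type*} (K : Subfield ℂ) [Countable K] (N r q m : ℕ) (A B : Fin r → ℂ)
    (hA : ∀ g, A g ∈ K) (hB : ∀ g, B g ∈ K) (n : Fin r → ℕ)
    (ρ : Fin ((q - 1) * 2 ^ q + 2) → ℚ) (hρ : Function.Injective ρ)
    (G : κ → MvPolynomial (Fin (N + 1)) (Polynomial K))
    (a b : Ind n q → MvPolynomial (Fin (N + 1)) (Polynomial K))
    (dg : Ind n q → ℕ) (hY : IsFamily G a b dg m ρ)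
    (Γe : ∀ g, Finset (crv (A g) (B g)).Point) (hΓe : ∀ g, ∀ P ∈ Γe g, Rat K P)
    (Γm : Finset ℂˣ) (hΓm : ∀ γ ∈ Γm, (γ : ℂ) ∈ K) :
    ∃ M : ℕ, ∀ β : ℕ, β.Prime → M < β →
      ∀ (P : (g : Fin r) × Fin (n g) → Polynomial ℤ) (P' : Fin q → Polynomial ℤ),
        (∀ j, P' j ≠ 0) →
        GoodExpF q β (fun l i => ordAt (ρ l) (P i)) (fun l j => ordAt (ρ l) (P' j)) →
        {t : ℤ | ¬ ∀ c : Ind n q → ℂ,
          IsScaling β c (fun i => ((P i).eval t).natAbs) (fun j => ((P' j).eval t).natAbs) →
            NoAtypical K Γe Γm m (scaled (A := A) (B := B) (fun i => at' (t : K) (G i))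
              (fun s => at' (t : K) (a s)) (fun s => at' (t : K) (b s)) c)}.Finite := by
  classical
  -- the finite set of constants
  let cpt : ∀ {A B : ℂ}, (crv A B).Point → Finset ℂ := fun P => match P with
    | .zero => ∅
    | .some x y _ => {x, y}
  let Γ : Finset ℂ := Finset.univ.image A ∪ Finset.univ.image B ∪
    Finset.univ.biUnion (fun g => (Γe g).biUnion (fun P => cpt P)) ∪
    (Γm.image (fun γ : ℂˣ => (γ : ℂ)) ∪ Γm.image (fun γ : ℂˣ => ((γ⁻¹ : ℂˣ) : ℂ)))
  have hAΓ : ∀ g, A g ∈ Γ := fun g => Finset.mem_union_left _ (Finset.mem_union_left _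
    (Finset.mem_union_left _ (Finset.mem_image_of_mem A (Finset.mem_univ g))))
  have hBΓ : ∀ g, B g ∈ Γ := fun g => Finset.mem_union_left _ (Finset.mem_union_left _
    (Finset.mem_union_right _ (Finset.mem_image_of_mem B (Finset.mem_univ g))))
  have heΓ : ∀ g, ∀ P ∈ Γe g, ∀ z ∈ cpt P, z ∈ Γ := fun g P hP z hz =>
    Finset.mem_union_left _ (Finset.mem_union_right _ (Finset.mem_biUnion.2
      ⟨g, Finset.mem_univ g, Finset.mem_biUnion.2 ⟨P, hP, hz⟩⟩))
  have hmΓ : ∀ γ ∈ Γm, (γ : ℂ) ∈ Γ ∧ ((γ⁻¹ : ℂˣ) : ℂ) ∈ Γ := fun γ hγ =>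
    ⟨Finset.mem_union_right _ (Finset.mem_union_left _
      (Finset.mem_image_of_mem (fun γ : ℂˣ => (γ : ℂ)) hγ)),
      Finset.mem_union_right _ (Finset.mem_union_right _
      (Finset.mem_image_of_mem (fun γ : ℂˣ => ((γ⁻¹ : ℂˣ) : ℂ)) hγ))⟩
  have hΓK : ∀ γ ∈ Γ, γ ∈ K := by
    intro γ hγ
    rcases Finset.mem_union.1 hγ with h | h
    · rcases Finset.mem_union.1 h with h | h
      · rcases Finset.mem_union.1 h with h | h
        · obtain ⟨g, -, rfl⟩ := Finset.mem_image.1 h
          exact hA g
        · obtain ⟨g, -, rfl⟩ := Finset.mem_image.1 h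
          exact hB g
      · obtain ⟨g, -, h2⟩ := Finset.mem_biUnion.1 h
        obtain ⟨P, hP, h3⟩ := Finset.mem_biUnion.1 h2
        have h4 := hΓe g P hP
        rcases P with _ | ⟨x, y, hn⟩
        · exact absurd h3 (Finset.notMem_empty γ)
        · obtain ⟨hx, hy⟩ := h4
          rcases Finset.mem_insert.1 h3 with h5 | h5
          · rw [h5]
            exact hx
          · rw [Finset.mem_singleton.1 h5]
            exact hy
    · rcases Finset.mem_union.1 h with h | h
      · obtain ⟨γ', hγ', rfl⟩ := Finset.mem_image.1 h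
        exact hΓm γ' hγ'
      · obtain ⟨γ', hγ', rfl⟩ := Finset.mem_image.1 h
        rw [Units.val_inv_eq_inv_val]
        exact K.inv_mem (hΓm γ' hγ')
  have hratΓ : ∀ g, ∀ P ∈ (Γe g : Set (crv (A g) (B g)).Point),
      Rat (Subfield.closure (Γ : Set ℂ)) P := by
    intro g P hP
    have h1 := heΓ g P hP
    rcases P with _ | ⟨x, y, hn⟩
    · trivial
    · exact ⟨Subfield.subset_closure (h1 x (Finset.mem_insert_self x {y})),
        Subfield.subset_closure (h1 y (Finset.mem_insert_of_mem (Finset.mem_singleton_self y)))⟩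
  have hAcl : ∀ g, A g ∈ Subfield.closure (Γ : Set ℂ) := fun g =>
    Subfield.subset_closure (hAΓ g)
  obtain ⟨M, D, hD⟩ := mainFK K (m := m) G hY.hG a b dg hY.ha hY.hb (fun l => (ρ l : K))
    (by
      intro l I hI y hyG hyI
      by_contra hy0
      obtain ⟨i, hi, h1⟩ := hY.hpos l I hI y ⟨hy0, hyG⟩
      exact h1 (hyI i hi)) Γ hΓK A B hAΓ hBΓ
  refine ⟨max M 2, fun β hβ hMβ P P' hP' hgood => ?_⟩
  have hM1 : M < β := lt_of_le_of_lt (le_max_left _ _) hMβ
  have hβ3 : 3 ≤ β := lt_of_le_of_lt (le_max_right M 2) hMβ
  refine (spread_poly q D hβ hβ3 ρ hρ P P' hP' hgood).subset ?_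
  intro t ht hsp0
  apply ht
  rintro c ⟨hcN, hcd⟩ Z
  have hsp := hsp0.mono (near' := fun p => ∃ l', ∀ V : ValuationSubring ℂ,
      (p : ℂ) ∈ V.nonunits →
        V.valuation ((((t : ℤ) : K) : ℂ) - ((ρ l' : K) : ℂ)) < 1) (by
    rintro p hp ⟨l, hl⟩
    refine ⟨l, fun V hV => ?_⟩
    have h1 := near_of_dvd hp (ρ l) t hl V hV
    have e1 : (((t : ℤ) : K) : ℂ) = (t : ℂ) := by norm_cast
    have e2 : ((ρ l : K) : ℂ) = (ρ l : ℂ) := by norm_cast
    rw [e1, e2]
    exact h1)
  have hpt : ∀ z ∈ scaled (A := A) (B := B) (fun i => at' (t : K) (G i))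
      (fun s => at' (t : K) (a s)) (fun s => at' (t : K) (b s)) c ∩ Z.locus,
      ∀ S : Finset (Ind n q),
      AlgebraicIndependent K (fun s : S => coords z s) → S.card + Z.codim ≤ m := by
    rintro z ⟨⟨y, hy, hz1, hz2⟩, hzZ1, hzZ2⟩ S hS
    have h2 := hD β hβ hM1 (t : K) _ _ hsp (fun i => c (Sum.inl i)) hcN z.P
      (fun j => (z.u j : ℂ)) y hy.1 hy.2
      (fun i => (hz1 i).imp id fun h => h.2)
      (fun j => by
        have h3 := hz2 j
        rw [hcd] at h3
        exact h3) Z.relE Z.relm
      (by
        intro g σ hσ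
        obtain ⟨T, hT, hR⟩ := divhull_rat (hAcl g) (hratΓ g) (Z.ptE g) (Z.hullE g) σ
        refine ⟨T * Z.T, Nat.mul_pos hT Z.T0, ?_⟩
        rw [mul_smul, hzZ1 g σ hσ, smul_comm]
        refine Rat.closure (hAcl g) (s := {T • ∑ i, σ i • Z.ptE g i}) ?_ _ ?_
        · rintro P hP
          rw [Set.mem_singleton_iff.1 hP]
          exact hR
        · exact nsmul_mem (AddSubgroup.subset_closure (Set.mem_singleton _)) _)
      (by
        intro b hb V hV
        have h3 := congrArg (Units.val : ℂˣ → ℂ) (hzZ2 b hb)
        have h4 : ∏ j, (z.u j : ℂ) ^ b j = ((∏ j, z.u j ^ b j : ℂˣ) : ℂ) := by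
          rw [Units.coe_prod]
          refine Finset.prod_congr rfl fun j _ => ?_
          rw [Units.val_zpow_eq_zpow_val]
        rw [h4, h3]
        refine divhull_val V (s := (Γm : Set ℂˣ)) (fun γ hγ => ?_) _ Z.hullm b
        have h5 := (ValuationSubring.valuation_le_one_iff V _).2 (hV _ (hmΓ γ hγ).1)
        have h6 := (ValuationSubring.valuation_le_one_iff V _).2 (hV _ (hmΓ γ hγ).2)
        refine le_antisymm h5 ?_
        rw [Units.val_inv_eq_inv_val, map_inv₀] at h6
        have h7 : V.valuation (γ : ℂ) ≠ 0 := (map_ne_zero _).2 γ.ne_zero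
        exact (inv_le_one₀ (zero_lt_iff.2 h7)).1 h6) S hS
    rw [add_assoc] at h2
    exact h2
  refine ⟨hpt, ?_⟩
  intro s ε W f hW hcl hprime hf
  obtain ⟨w, hwW, hfw, T, hT, hdim⟩ := generic_dim_open K W hprime hcl f hf
  obtain ⟨z, hz, hwz⟩ := hW w hwW hfw
  let S : Finset (Ind n q) := T.map ε.toEmbedding
  have hS : AlgebraicIndependent K (fun s : S => coords z s) := by
    let f : S → T := fun s => ⟨ε.symm s, by
      obtain ⟨t, ht, hts⟩ := Finset.mem_map.1 s.2
      have h2 : ε.symm (s : Ind n q) = t := by
        rw [← hts]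
        exact ε.symm_apply_apply t
      rw [h2]
      exact ht⟩
    have hf : Function.Injective f := by
      intro s s' hss
      have h2 := congrArg (Subtype.val : T → Fin _) hss
      exact Subtype.ext (ε.symm.injective h2)
    have h2 := hT.comp f hf
    convert h2 using 1
    funext s
    change coords z s = w (ε.symm s)
    rw [hwz, ε.apply_symm_apply]
  have h2 := hpt z hz S hS
  rw [Finset.card_map] at h2
  calc zdim W + (Z.codim : Cardinal) ≤ (T.card : Cardinal) + (Z.codim : Cardinal) := by gcongr
    _ = ((T.card + Z.codim : ℕ) : Cardinal) := by push_cast; rfl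
    _ ≤ (m : Cardinal) := by exact_mod_cast h2

end Pool.Agent.Results.MP_dd1803_nt.FinitelyManyMembers
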