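import Pool.Agent.N666.TM.Diag
import Pool.Agent.Results.MP_dd1803_nt.EllipticScaledImages

/-!
# MP_dd1803_nt: one set of density zero for Zilber-Pink and Mordell-Lang of all scaled projective sets
in all split semiabelian varieties

Let `E_g : y² = x³ + A_g x + B_g`, `g = 1, …, r`, be elliptic curves over the complex numbers and let
`𝔖 = ∏_g E_g^(n_g) × G_m^q` (`Amb`), with the coordinates `x (P_{g,i})` and `u_j` of its points `(P, u)`.
Let `Y ⊆ P^N` be a projective algebraic set and `a_s / b_s` quotients of forms of the same degree, one for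
every coordinate `s`, all over a countable field `K ⊂ ℂ` which contains the `A_g`, `B_g`, such that no
point of `Y` lies on `m + 1` of the sets `a_s b_s = 0` (`IsMap`). For numbers `c_s ≠ 0` the set
`X_c ⊆ 𝔖` (`scaled`) consists of the points with `c_{g,i} x (P_{g,i}) = (a_{g,i} / b_{g,i}) (y)` and
`c_j u_j = (a_j / b_j) (y)` for a point `y` of `Y`. These are the sets of the starting result
`EllipticScaledImages`, which shows that `X_c` has no atypical intersections if the `c_{g,i}` are `β`-th
roots of positive integers and the `c_j` are positive integers which are spread out over sufficiently many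
large primes (`SpreadE`), and that all but `O (√H)` of the numbers `k ≤ H` are such that this is the case
for products of powers of `k, k + 1, k + 2, …`. The exceptional set depends there on all data.

Let `P_0, P_1, P_2, …` be an infinite sequence of generalised polynomials `P(t) = ∑ a_x t ^ x` (finitely
many real exponents, real coefficients, depending on `l`) with distinct leading exponents which are
positive and not integers and have positive coefficients; for example `P_l(t) = t ^ (2 l + √2)`, or
`P_l(t) = t ^ (1 / (l + 2))`.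

**Theorem.** There is ONE set `E` of integers of natural density zero, also of relative density zero in
the set of the PRIMES, such that for ALL split semiabelian varieties `𝔖` as above (of any dimension, for
all elliptic curves `E_g` over `ℂ`), all countable fields `K`, all projective sets `Y` of any dimension
and all maps `a_s / b_s` over `K`, and all finitely generated groups `Γ` of points of `𝔖` over `K`
(uncountably many data) there is a number `M` with the following property: for all primes `β > M`, for any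
`L = (q - 1) 2^q + 1` different polynomials `P_{φ l}` of the sequence and all exponents `e`, `a'` which
satisfy `GoodExp` (there are many, see `Pool.Agent.W466.EP.goodExp_vandermonde`), the set `X_c` with

`c_{g,i} ^ β = ∏_l |⌊P_{φ l}(t)⌋| ^ e_{l,(g,i)}`,  `c_j = ∏_l |⌊P_{φ l}(t)⌋| ^ a'_{l,j}`

has for all but finitely many integers `t` outside `E` no atypical intersection with translates `Z` of
algebraic subgroups of `𝔖` by points of the division hull of `Γ`, in particular with torsion cosets:
every irreducible constructible subset of `X_c ∩ Z` has dimension at most `m - codim Z`, and every point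
of `X_c ∩ Z` has transcendence degree at most `m - codim Z` over `K`. In particular `X_c` does not meet
the `Z` of codimension larger than `m`.

The set `E` depends on the `P_l` only; the finite number of further exceptions depends on the data, as it
must. Only the integer `t`, or the prime number `t`, varies, along thin sequences: `c` takes at most `N`
of the `N ^ const` values in a box.

Proof. By exponential sums (`Pool.Agent.Y961.JR` of the starting library) and Turan's sieve for almost
all `t` every `⌊P_l(t)⌋`, `l ≤ k`, has an exact prime divisor above `k` which does not divide the others;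
a diagonal argument gives one set for all `k` (`Pool.Agent.N666.TM`). At these primes the exponents of
the `c_s` are the rows of `e` and `a'`, and the criterion of `EllipticScaledImages` applies.
-/

set_option autoImplicit false

namespace Pool.Agent.Results.MP_dd1803_nt.OneNullSet

open MvPolynomial Pool.Agent.W466.EP
open Pool.Agent.Results.MP_dd1803_nt.EllipticScaledImages (Amb Ind IsMap IsScaling NoAtypical scaled)

/-- `c` is the largest exponent of the generalised polynomial `∑ a_x t ^ x`; it is positive and not an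
integer and has a positive coefficient. -/
def Admissible (F : Finset ℝ) (a : ℝ → ℝ) (c : ℝ) : Prop :=
  c ∈ F ∧ (∀ x ∈ F, x ≤ c) ∧ 0 < c ∧ (∀ m : ℕ, c ≠ m) ∧ 0 < a c

/-- The absolute value of the integer part of the value at `t` of the generalised polynomial `P_l`. -/
noncomputable def value (F : ℕ → Finset ℝ) (a : ℕ → ℝ → ℝ) (l t : ℕ) : ℕ :=
  (⌊∑ x ∈ F l, a l x * (t : ℝ) ^ x⌋).natAbs

/-- `E` has density zero relative to the sets `S N`. -/
def NullIn (S : ℕ → Finset ℕ) (E : Set ℕ) : Prop :=
  ∀ ε : ℝ, 0 < ε → ∃ N₀ : ℕ, ∀ N : ℕ, N₀ ≤ N →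
    ({t : ℕ | t ∈ S N ∧ t ∈ E}.ncard : ℝ) ≤ ε * (S N).card

/-- The product `∏_l |⌊P_{φ l}(t)⌋| ^ e_{l s}`. -/
noncomputable def thin (F : ℕ → Finset ℝ) (a : ℕ → ℝ → ℝ) {L : ℕ} (φ : Fin L → ℕ) {ι : Type}
    (e : Fin L → ι → ℕ) (t : ℕ) (s : ι) : ℕ :=
  ∏ l : Fin L, value F a (φ l) t ^ e l s

theorem fac_thin {F : ℕ → Finset ℝ} {a : ℕ → ℝ → ℝ} {L : ℕ} {φ : Fin L → ℕ}
    (hφ : Function.Injective φ) {ι : Type} (e : Fin L → ι → ℕ) {t k : ℕ} (hk : ∀ l, φ l < k + 1)
    {p : ∀ l < k + 1, ℕ} (hp : ∀ l hl, (p l hl).Prime)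
    (h3 : ∀ l hl, ((p l hl : ℕ) : ℤ) ∣ Pool.Agent.N666.TM.flo F a l t)
    (h4 : ∀ l hl, ¬ ((p l hl : ℕ) : ℤ) ^ 2 ∣ Pool.Agent.N666.TM.flo F a l t)
    (h5 : ∀ l hl, ∀ i < k + 1, i ≠ l → ¬ ((p l hl : ℕ) : ℤ) ∣ Pool.Agent.N666.TM.flo F a i t)
    (l : Fin L) (s : ι) : (thin F a φ e t s).factorization (p (φ l) (hk l)) = e l s := by
  refine Pool.Agent.N666.TM.fact_prod (m := fun l => value F a (φ l) t) (fun l' => e l' s) l
    (hp _ (hk l)) ?_ ?_ ?_
  · exact Int.natCast_dvd.mp (h3 _ (hk l))
  · intro hd
    apply h4 _ (hk l)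
    have := Int.natCast_dvd.mpr hd
    push_cast at this
    exact this
  · intro i' hi' hd
    exact h5 _ (hk l) _ (hk i') (fun heq => hi' (hφ heq)) (Int.natCast_dvd.mpr hd)

universe u

theorem result (F : ℕ → Finset ℝ) (a : ℕ → ℝ → ℝ) (c : ℕ → ℝ) (h : ∀ l, Admissible (F l) (a l) (c l))
    (hc : Function.Injective c) :
    ∃ E : Set ℕ, NullIn (fun N => Finset.Ioc N (2 * N)) E ∧
      NullIn (fun N => (Finset.Ioc N (2 * N)).filter Nat.Prime) E ∧
      ∀ (κ : Type u) (K : Subfield ℂ) [Countable K] (N r q m : ℕ) (A B : Fin r → ℂ)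
        (_ : ∀ g, A g ∈ K) (_ : ∀ g, B g ∈ K) (n : Fin r → ℕ)
        (G : κ → MvPolynomial (Fin (N + 1)) K) (na nb : Ind n q → MvPolynomial (Fin (N + 1)) K)
        (dg : Ind n q → ℕ) (_ : IsMap G na nb dg m)
        (Γe : ∀ g, Finset (crv (A g) (B g)).Point) (_ : ∀ g, ∀ P ∈ Γe g, Rat K P)
        (Γm : Finset ℂˣ) (_ : ∀ γ ∈ Γm, (γ : ℂ) ∈ K),
        ∃ M : ℕ, ∀ β : ℕ, β.Prime → M < β →
          ∀ φ : Fin ((q - 1) * 2 ^ q + 1) → ℕ, Function.Injective φ →
          ∀ (e : Fin ((q - 1) * 2 ^ q + 1) → (g : Fin r) × Fin (n g) → ℕ)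
            (a' : Fin ((q - 1) * 2 ^ q + 1) → Fin q → ℕ), GoodExp q β e a' →
            {t : ℕ | t ∉ E ∧ ¬ ∀ c : Ind n q → ℂ,
              IsScaling β c (thin F a φ e t) (thin F a φ a' t) →
                NoAtypical K Γe Γm m (scaled (A := A) (B := B) G na nb c)}.Finite := by
  obtain ⟨E, h1, h2, h3⟩ := Pool.Agent.N666.TM.one_null_set h hc
  refine ⟨E, h1, h2, ?_⟩
  intro κ K _ N r q m A B hA hB n G na nb dg hY Γe hΓe Γm hΓm
  obtain ⟨M, D, C, hMD⟩ := Pool.Agent.Results.MP_dd1803_nt.EllipticScaledImages.result K N r q m A B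
    hA hB n G na nb dg hY Γe hΓe Γm hΓm
  refine ⟨M, fun β hβ hMβ φ hφ e a' hea => ?_⟩
  have hgood := (hMD β hβ hMβ).1
  refine (h3 (D + ∑ l, φ l)).subset ?_
  rintro t ⟨htE, ht⟩
  refine ⟨htE, fun hg => ht fun c hc => hgood c _ _ hc ?_⟩
  choose p hp1 hp2 hp3 hp4 hp5 using hg
  have hlt : ∀ l, φ l < (D + ∑ l, φ l) + 1 := fun l => by
    have := Finset.single_le_sum (f := φ) (fun _ _ => Nat.zero_le _) (Finset.mem_univ l)
    omega
  have hfe : ∀ (l) (s : (g : Fin r) × Fin (n g)),
      (thin F a φ e t s).factorization (p (φ l) (hlt l)) = e l s :=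
    fun l s => fac_thin hφ e hlt hp1 hp3 hp4 hp5 l s
  have hfa : ∀ (l) (s : Fin q), (thin F a φ a' t s).factorization (p (φ l) (hlt l)) = a' l s :=
    fun l s => fac_thin hφ a' hlt hp1 hp3 hp4 hp5 l s
  have hval : ∀ l : Fin ((q - 1) * 2 ^ q + 1), value F a (φ l) t ≠ 0 := by
    intro l h0
    apply hp4 (φ l) (hlt l)
    have h6 : Pool.Agent.N666.TM.flo F a (φ l) t = 0 := Int.natAbs_eq_zero.1 h0
    rw [h6]
    exact dvd_zero _
  refine ⟨fun j => Finset.prod_ne_zero_iff.2 fun l _ => pow_ne_zero _ (hval l),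
    fun l => p (φ l) (hlt l), fun l => ⟨hp1 _ _, ?_⟩, fun l i => ?_, fun l i j hij => ?_,
    fun I hI b hb => hea.2.2 I hI b fun l hl => ?_⟩
  · exact lt_of_le_of_lt (Nat.le_add_right _ _) (hp2 (φ l) (hlt l))
  · rw [hfe]
    exact hea.1 l i
  · rw [hfe, hfe]
    exact hea.2.1 l i j hij
  · rw [← hb l hl]
    refine Finset.sum_congr rfl fun j _ => ?_
    rw [hfa]

end Pool.Agent.Results.MP_dd1803_nt.OneNullSet
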