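import Pool.Agent.Results.MP_dd1803_nt.EllipticExtensions
import Pool.Agent.TH526.ZT.D
import Pool.Agent.TH526.ZT.J

/-!
# MP_dd1803_nt: Zilber-Pink for all but finitely many translates of an arbitrary subvariety of a
semiabelian variety, whose abelian part is an elliptic curve, by the elements of a finitely generated
group

Let `G` be the extension of the elliptic curve `E : y² = x³ + a x + b` over `ℂ` by `G_m^k` with the
classes `Q_i - O` in `Pic^0(E)`, where the `Q_i ≠ O` are linearly independent modulo torsion (see the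
starting result `EllipticExtensions` for the coordinates, the group law and the torsion cosets of `G`).
Every semiabelian variety with an abelian part of dimension one is isogenous to such a `G`; it does not
split, for instance, if `Q_i ≠ O` for some `i`.

**Theorem.** Let `V` be an arbitrary algebraic subset of `G` of dimension `m` (`DimLE`, of any dimension),
without component of dimension `m` in the fibre over a torsion point of `E`. There is a number `K`,
depending only on `V`, such that for `K t < N` the following holds. Let `F` be a countable subfield of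
`ℂ` (for instance a number field) with `N` nonarchimedean absolute values `v_i`, let `g_1, …, g_r` be
vectors of nonzero elements of `F`, and let `C` be a closed cone in `ℝ^r` such that for all real `μ ≠ 0`
in `C` any `t` of the `N` vectors `∑_l μ_l (log v_i(g_l1), …, log v_i(g_lk))` span `ℝ^k`
(`GeneralPosition`). Then for all but finitely many integral points `μ` of `C` the translate of `V` by
`g_1 ^ μ_1 ⋯ g_r ^ μ_r` has no atypical intersection with torsion cosets of `G`: it has no atypical
subvariety at all.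

For `r = 1`, `F = ℚ` it is a theorem on the translates by the powers `g ^ μ` of one vector of rational
numbers such that at `N` prime numbers (small or large, also of bad reduction of `E`) any `t` of the
vectors `(v_p(g_1), …, v_p(g_k))` span `ℚ^k` (`rational_powers` below). For `C = ℝ^r` the theorem is about
all but finitely many elements of the group generated by `g_1, …, g_r`; the condition holds for vectors
in general position, with `t = k + r - 1`: the `t × k` matrices of rank less than `k` are a set of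
codimension `t - k + 1 = r`.

The starting result `EllipticExtensions` shows that for almost all exponents in boxes, `100 %` of all the
translates by the `S`-units `∏_i p_i ^ e_ij`, `|e_ij| ≤ R`, there are no atypical intersections; it says
nothing on the translates by the powers of one element, or by the elements of a group of small rank. The
theorem for tori is `PowerTranslates` of `MP_c95b3b_ag`.

Proof: the local criterion of the starting library (`Pool.Agent.Y237.SA.main_crit`): if the translate by
`g` has an atypical intersection then `t` of the vectors of the `log v_i(g_j)` are at a bounded distance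
from a common hyperplane. This is a finite set of `μ` by compactness.
-/

set_option autoImplicit false

namespace Pool.Agent.Results.MP_dd1803_nt.PowerTranslates

open MvPolynomial
open Pool.Agent.Results.MP_dd1803_nt.EllipticExtensions (E DimLE FibreDimLT NoAtypical translate
  noAtypical_of)

/-- The element `g_1 ^ μ_1 ⋯ g_r ^ μ_r` of the torus. -/
noncomputable def power {F : Type} [Field F] [Algebra F ℂ] {k r : ℕ} (g : Fin r → Fin k → F)
    (μ : Fin r → ℤ) : Fin k → ℂ :=
  fun j => ∏ l, algebraMap F ℂ (g l j) ^ μ l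

/-- For all nonzero `μ` in `C` any `t` of the vectors `∑_l μ_l (log v_i(g_l1), …, log v_i(g_lk))`
span `ℝ^k`. -/
def GeneralPosition {F : Type} [Field F] {k r N : ℕ} (t : ℕ) (v : Fin N → AbsoluteValue F ℝ)
    (g : Fin r → Fin k → F) (C : Set (Fin r → ℝ)) : Prop :=
  ∀ μ ∈ C, μ ≠ 0 → ∀ T : Finset (Fin N), T.card = t →
    Submodule.span ℝ (Set.range fun (i : T) (j : Fin k) => ∑ l, μ l * Real.log (v i (g l j))) = ⊤

/-- An absolute value of `ℂ` which is at most one at the natural numbers is nonarchimedean. -/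
theorem nonarch_of_nat (v : AbsoluteValue ℂ ℝ) (h : ∀ n : ℕ, v n ≤ 1) : IsNonarchimedean v := by
  have h1 : IsUltrametricDist (WithAbs v) := by
    refine IsUltrametricDist.isUltrametricDist_of_forall_norm_natCast_le_one fun n => ?_
    rw [WithAbs.norm_eq_apply_ofAbs]
    exact h n
  intro x y
  have h2 := IsUltrametricDist.norm_add_le_max (WithAbs.toAbs v x) (WithAbs.toAbs v y)
  exact h2

/-- The general case, for absolute values of `ℂ`. -/
theorem general {a b : ℂ} {k : ℕ} (hE : 4 * a ^ 3 + 27 * b ^ 2 ≠ 0) (m : ℕ) (Q : Fin k → E a b)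
    (hQ : ∀ c : Fin k → ℤ, (∃ n : ℕ, 0 < n ∧ n • ∑ i, c i • Q i = 0) →
      ∀ i, Q i ≠ 0 → c i = 0)
    (V : Set (E a b × (Fin k → ℂ))) (hV : DimLE m V)
    (hfib : ∀ P : E a b, (∃ n : ℕ, 0 < n ∧ n • P = 0) → FibreDimLT m V P) :
    ∃ K : ℕ, ∀ N t : ℕ, K * t < N → ∀ (v : Fin N → AbsoluteValue ℂ ℝ),
      (∀ i, IsNonarchimedean (v i)) → ∀ (r : ℕ) (g : Fin r → Fin k → ℂ), (∀ l j, g l j ≠ 0) →
        ∀ C : Set (Fin r → ℝ), IsClosed C → (∀ μ ∈ C, ∀ s : ℝ, 0 < s → s • μ ∈ C) →
          GeneralPosition t v g C →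
            {μ : Fin r → ℤ | (fun l => (μ l : ℝ)) ∈ C ∧
              ¬ NoAtypical Q m (translate (power g μ) V)}.Finite := by
  classical
  have hQ' : ∀ i, Q i ≠ 0 → ∀ n : ℕ, 0 < n → n • Q i ≠ 0 := by
    intro i hi n hn h0
    have h1 := hQ (Pi.single i 1) ⟨n, hn, ?_⟩ i hi
    · rw [Pi.single_eq_same] at h1
      exact one_ne_zero h1
    · rw [Finset.sum_eq_single i]
      · rw [Pi.single_eq_same, one_zsmul, h0]
      · intro j _ hj
        rw [Pi.single_eq_of_ne hj, zero_zsmul]
      · intro h
        exact absurd (Finset.mem_univ i) h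
  obtain ⟨K, h⟩ := Y237.SA.main_crit (a := a) (b := b) hE Q hQ' m V hV hfib
  refine ⟨K, fun N t hN v hv r g hg C hC hcone hgen => ?_⟩
  obtain ⟨B', hB', hmain⟩ := h N t hN v hv 0
  obtain ⟨R, hR⟩ := TH526.ZT.cone_bound t (fun k i j => Real.log (v i (g k j))) C hC hcone hgen B'
  have hfin : (Set.pi Set.univ fun _ : Fin r => Set.Icc (-⌈R⌉) ⌈R⌉).Finite :=
    Set.Finite.pi fun _ => Set.finite_Icc _ _
  refine hfin.subset ?_
  rintro μ ⟨hμC, hμ⟩
  have hp0 : ∀ j, power g μ j ≠ 0 := fun j =>
    Finset.prod_ne_zero_iff.2 fun l _ => zpow_ne_zero _ (hg l j)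
  have hlog : ∀ i j, Real.log (v i (power g μ j)) = ∑ l, (μ l : ℝ) * Real.log (v i (g l j)) := by
    intro i j
    rw [power, map_prod, Real.log_prod]
    · refine Finset.sum_congr rfl fun l _ => ?_
      rw [map_zpow₀, Real.log_zpow]
      rfl
    · intro l _
      rw [map_zpow₀]
      exact zpow_ne_zero _ ((v i).ne_zero (hg l j))
  obtain ⟨T, hT, φ, hφ, hφB⟩ := hmain (power g μ) hp0 fun hno => hμ (noAtypical_of hno)
  simp only [hlog] at hφB
  have hnorm := hR _ hμC T hT φ hφ hφB
  intro l _
  have h1 : |(μ l : ℝ)| ≤ R := (norm_le_pi_norm (fun l => (μ l : ℝ)) l).trans hnorm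
  have h2 : |(μ l : ℝ)| ≤ (⌈R⌉ : ℝ) := h1.trans (Int.le_ceil R)
  have h3 : |μ l| ≤ ⌈R⌉ := by exact_mod_cast h2
  exact Set.mem_Icc.2 (abs_le.1 h3)

/-- Zilber-Pink, with no atypical intersections, for all but finitely many translates of an arbitrary
subvariety of an extension of an elliptic curve by a torus by the elements of a finitely generated
group in general position. -/
theorem result (a b : ℂ) (hE : 4 * a ^ 3 + 27 * b ^ 2 ≠ 0) (k m : ℕ) (Q : Fin k → E a b)
    (hQ : ∀ c : Fin k → ℤ, (∃ n : ℕ, 0 < n ∧ n • ∑ i, c i • Q i = 0) →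
      ∀ i, Q i ≠ 0 → c i = 0)
    (V : Set (E a b × (Fin k → ℂ))) (hV : DimLE m V)
    (hfib : ∀ P : E a b, (∃ n : ℕ, 0 < n ∧ n • P = 0) → FibreDimLT m V P) :
    ∃ K : ℕ, ∀ N t : ℕ, K * t < N →
      ∀ (F : Type) [Field F] [Countable F] [Algebra F ℂ] (v : Fin N → AbsoluteValue F ℝ),
        (∀ i, IsNonarchimedean (v i)) → ∀ (r : ℕ) (g : Fin r → Fin k → F), (∀ l j, g l j ≠ 0) →
        ∀ C : Set (Fin r → ℝ), IsClosed C → (∀ μ ∈ C, ∀ s : ℝ, 0 < s → s • μ ∈ C) →
          GeneralPosition t v g C →
            {μ : Fin r → ℤ | (fun l => (μ l : ℝ)) ∈ C ∧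
              ¬ NoAtypical Q m (translate (power g μ) V)}.Finite := by
  classical
  obtain ⟨K, h⟩ := general hE m Q hQ V hV hfib
  refine ⟨K, fun N t hN F _ _ _ v hv r g hg C hC hcone hgen => ?_⟩
  choose v' hv' using fun i => TH526.ZT.exists_abs_extend F (v i) (Or.inl (hv i))
  have hna : ∀ i, IsNonarchimedean (v' i) := fun i => by
    refine nonarch_of_nat (v' i) fun n => ?_
    have h1 := hv' i (n : F)
    rw [map_natCast] at h1
    rw [h1]
    exact (hv i).apply_natCast_le_one
  have h1 := h N t hN v' hna r (fun l j => algebraMap F ℂ (g l j))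
    (fun l j => (map_ne_zero _).2 (hg l j)) C hC hcone (by
      intro μ hμ hμ0 T hT
      simp only [hv']
      exact hgen μ hμ hμ0 T hT)
  exact h1

/-- The powers of one vector of rational numbers. -/
theorem rational_powers (a b : ℂ) (hE : 4 * a ^ 3 + 27 * b ^ 2 ≠ 0) (k m : ℕ) (Q : Fin k → E a b)
    (hQ : ∀ c : Fin k → ℤ, (∃ n : ℕ, 0 < n ∧ n • ∑ i, c i • Q i = 0) →
      ∀ i, Q i ≠ 0 → c i = 0)
    (V : Set (E a b × (Fin k → ℂ))) (hV : DimLE m V)
    (hfib : ∀ P : E a b, (∃ n : ℕ, 0 < n ∧ n • P = 0) → FibreDimLT m V P) :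
    ∃ K : ℕ, ∀ N t : ℕ, K * t < N →
      ∀ p : Fin N → ℕ, (∀ i, (p i).Prime) → ∀ g : Fin k → ℚ, (∀ j, g j ≠ 0) →
        (∀ T : Finset (Fin N), T.card = t →
          Submodule.span ℚ (Set.range fun (i : T) (j : Fin k) =>
            (padicValRat (p i) (g j) : ℚ)) = ⊤) →
        {μ : ℤ | ¬ NoAtypical Q m (translate (fun j => (g j : ℂ) ^ μ) V)}.Finite := by
  classical
  obtain ⟨K, h⟩ := general hE m Q hQ V hV hfib
  refine ⟨K, fun N t hN p hp g hg hspan => ?_⟩
  have hfact : ∀ i, Fact (p i).Prime := fun i => ⟨hp i⟩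
  let τ : ∀ i, ℂ →+* PadicAlgCl (p i) := fun i =>
    Classical.choice (H936R2.exists_embedding (p i))
  have hgp : GeneralPosition t (fun i => TH526.ZT.pabs (p i) (τ i))
      (fun (_ : Fin 1) (j : Fin k) => (g j : ℂ)) Set.univ := by
    intro μ _ hμ T hT
    have hμ0 : μ 0 ≠ 0 := by
      intro h0
      apply hμ
      funext l
      rw [Subsingleton.elim l 0]
      exact h0
    have h1 := TH526.ZT.span_real _ (hspan T hT) (fun i : T => -Real.log (p i) * μ 0)
      (fun i => mul_ne_zero
        (neg_ne_zero.2 (Real.log_pos (by exact_mod_cast (hp i).one_lt)).ne') hμ0)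
    rw [← h1]
    congr 2
    funext i j
    rw [Finset.univ_unique, Finset.sum_singleton, TH526.ZT.log_pabs _ _ _ (hg j)]
    push_cast
    change μ 0 * _ = _
    ring
  have hfin := h N t hN _ (fun i => TH526.ZT.pabs_nonarch (p i) (τ i)) 1
    (fun _ j => (g j : ℂ)) (fun _ j => Rat.cast_ne_zero.2 (hg j)) Set.univ isClosed_univ
    (fun _ _ _ _ => Set.mem_univ _) hgp
  refine (hfin.image (fun μ : Fin 1 → ℤ => μ 0)).subset ?_
  intro μ hμ
  refine ⟨fun _ => μ, ⟨Set.mem_univ _, fun hno => hμ ?_⟩, rfl⟩
  have hW : translate (power (fun (_ : Fin 1) (j : Fin k) => (g j : ℂ)) fun _ => μ) V =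
      translate (fun j => (g j : ℂ) ^ μ) V := by
    congr 1
    funext j
    simp [power]
  rw [hW] at hno
  exact hno

end Pool.Agent.Results.MP_dd1803_nt.PowerTranslates
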