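import Pool.Agent.N24.RW.All
import Pool.Agent.N763.RO.Bad
import Pool.Agent.Results.MP_dd1803_nt.EllipticScaledImages

/-!
# MP_dd1803_nt: Zilber-Pink and Mordell-Lang for the scaled projective sets in all split semiabelian
varieties along random orbits of Zariski dense groups, at one hundred percent of the times

**The sets.** Let `E_g : y² = x³ + A_g x + B_g`, `g = 1, …, r`, be elliptic curves over the complex numbers
and let `𝔖 = ∏_g E_g^(n_g) × G_m^q` (`Amb`), with the coordinates `x (P_{g,i})` and `u_j` of its points
`(P, u)`. Let `Y ⊆ P^N` be a projective algebraic set and `a_s / b_s` quotients of forms of the same degree,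
one for every coordinate `s`, all over a countable field `K ⊂ ℂ` which contains the `A_g`, `B_g`, such that
no point of `Y` lies on `m + 1` of the sets `a_s b_s = 0` (`IsMap`). For numbers `c_s ≠ 0` the set
`X_c ⊆ 𝔖` (`scaled`) consists of the points with `c_{g,i} x (P_{g,i}) = (a_{g,i} / b_{g,i}) (y)` and
`c_j u_j = (a_j / b_j) (y)` for a point `y` of `Y`. These are the sets of the starting result
`EllipticScaledImages`. `NoAtypical K Γe Γm m X`: every irreducible constructible subset of the
intersection of `X` with a translate `Z` of an algebraic subgroup of `𝔖` by a point of the division hull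
of the finitely generated group `Γ` (for instance with a torsion coset) has dimension at most
`m - codim Z`, and every point of it has transcendence degree at most `m - codim Z` over `K`.

**Random orbits.** Let `s_0, …, s_m'` be matrices in `SL_ι(ℤ)`, `|ι| ≥ 2`, which generate `SL_ι(ℤ/q)` for
all `q` prime to some `q₀` (`Walk`; by strong approximation it is enough that they generate a Zariski dense
subgroup, possibly a thin one, of infinite index), and `v ≠ 0` in `ℤ^ι`. The random orbit is
`x_n = s_(w (n-1)) ⋯ s_(w 0) v` (`orb`) for independent, uniformly distributed indices `w 0, w 1, …`; the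
words `w` are the points of a probability space (`words`).

**Theorem.** For almost all words `w` there is ONE set `E` of times of density zero such that for ALL
split semiabelian varieties `𝔖` as above (any dimension, all elliptic curves over `ℂ`), all countable
fields `K`, all projective sets `Y` of any dimension, all maps `a_s / b_s` and all finitely generated
groups `Γ` over `K` there is a number `M` such that for all primes `β > M`, all `L = (q - 1) 2^q + 1`
polynomials `h_1, …, h_L` in `1 + s` variables with integral coefficients, of degree one in the first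
variable and pairwise without common factor of positive degree in it (for example `t_0 + l t_1`, or
`t_0 t_1 + l t_2 ^ 3`), all distinct coordinates `j_0, …, j_s` and all exponents `e`, `a'` with `GoodExp`
(there are many, see `Pool.Agent.W466.EP.goodExp_vandermonde`): for all but finitely many times `n` outside
`E` the set `X_c` with

`c_{g,i} ^ β = ∏_l |h_l(t)| ^ e_{l,(g,i)}`, `c_j = ∏_l |h_l(t)| ^ a'_{l,j}`, `t = (x_{n,j_0}, …, x_{n,j_s})`,

has no atypical intersection: `NoAtypical K Γe Γm m X_c`.

The set `E` depends only on the word (and the walk); the finite number of further exceptions depends on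
the data, as it must. The starting result `RandomOrbits` shows for the pull-backs under rational maps of
bounded degree that the lower density of the good times is positive; here the set of the good times has
density one, the scalings are not determined by residue classes, and there are translates by the points
of groups of finite rank. The vectors of an orbit are exponentially sparse, so that the theorem says
nothing new for boxes and does not follow from `EllipticScaledImages`, where exceptions are counted in
boxes.

Proof. `EllipticScaledImages` gives a criterion: for every `l` there is a prime number `p_l > D` which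
divides `h_l(t)` exactly, but not the other `h_l'(t)`. By the engine of the starting library
(`Pool.Agent.N763.RO.engine`, `Pool.Agent.N24.RW`: sieve, Haar measure of the closure of the exceptional
set, ergodic theorem for random walks on finite groups, diagonal argument over the countable set of all
pairs of coprime polynomials) this is true for all but finitely many times outside of one set of
density zero.
-/

set_option autoImplicit false

namespace Pool.Agent.Results.MP_dd1803_nt.ScaledImagesRandomOrbits

open MvPolynomial Pool.Agent.W466.EP MeasureTheory Filter Topology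
open Pool.Agent.N24.RW (Walk orb words)
open Pool.Agent.R424.MP (ev CoprimeTo)
open Pool.Agent.Results.MP_dd1803_nt.EllipticScaledImages (Amb Ind IsMap IsScaling NoAtypical scaled)

/-- The product `∏_l |h_l(x_0; x_1, …, x_s)| ^ e_{l i}`. -/
noncomputable def prodVal {s L : ℕ} (h : Fin L → Polynomial (MvPolynomial (Fin s) ℤ))
    (x : Fin (s + 1) → ℤ) {α : Type} (e : Fin L → α → ℕ) (i : α) : ℕ :=
  ∏ l, (ev (x 0) (fun i => x i.succ) (h l)).natAbs ^ e l i

theorem fact_prod {L : ℕ} {m : Fin L → ℕ} (e : Fin L → ℕ) (l : Fin L) {p : ℕ} (hp : p.Prime)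
    (h1 : p ∣ m l) (h2 : ¬ p ^ 2 ∣ m l) (h3 : ∀ i, i ≠ l → ¬ p ∣ m i) :
    (∏ i, m i ^ e i).factorization p = e l := by
  have hne : ∀ i, m i ≠ 0 := by
    intro i h0
    by_cases hi : i = l
    · subst hi; exact h2 (by rw [h0]; exact dvd_zero _)
    · exact h3 i hi (by rw [h0]; exact dvd_zero _)
  rw [Nat.factorization_prod (fun i _ => pow_ne_zero _ (hne i))]
  simp only [Nat.factorization_pow, Finsupp.coe_finsetSum, Finset.sum_apply, Finsupp.coe_smul,
    Pi.smul_apply, smul_eq_mul]
  rw [Finset.sum_eq_single l]
  · have h4 : (m l).factorization p = 1 := by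
      have h5 : 1 ≤ (m l).factorization p := (hp.dvd_iff_one_le_factorization (hne l)).mp h1
      have h6 : ¬ 2 ≤ (m l).factorization p := fun h => h2
        ((hp.pow_dvd_iff_le_factorization (hne l)).mpr h)
      omega
    rw [h4, mul_one]
  · intro i _ hi
    rw [Nat.factorization_eq_zero_of_not_dvd (h3 i hi), mul_zero]
  · intro h
    exact absurd (Finset.mem_univ l) h

theorem coprime_prod {s : ℕ} {ι : Type} [DecidableEq ι] {h : Polynomial (MvPolynomial (Fin s) ℤ)}
    (t : Finset ι) (g : ι → Polynomial (MvPolynomial (Fin s) ℤ)) (hg : ∀ i ∈ t, CoprimeTo h (g i)) :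
    CoprimeTo h (∏ i ∈ t, g i) := by
  induction t using Finset.induction_on with
  | empty => exact ⟨0, 1, 1, one_ne_zero, by simp⟩
  | insert i t hi ih =>
    rw [Finset.prod_insert hi]
    obtain ⟨a₁, b₁, R₁, hR₁, e₁⟩ := hg i (Finset.mem_insert_self i t)
    obtain ⟨a₂, b₂, R₂, hR₂, e₂⟩ := ih fun i hi => hg i (Finset.mem_insert_of_mem hi)
    refine ⟨a₁ * a₂ * h + a₁ * b₂ * (∏ i ∈ t, g i) + a₂ * b₁ * g i, b₁ * b₂, R₁ * R₂,
      mul_ne_zero hR₁ hR₂, ?_⟩
    rw [Polynomial.C_mul, ← e₁, ← e₂]
    ring

/-- The criterion of `EllipticScaledImages` for the products of the values of polynomials. -/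
theorem spread_of {α : Type} {s q D β : ℕ}
    (h : Fin ((q - 1) * 2 ^ q + 1) → Polynomial (MvPolynomial (Fin s) ℤ)) (x : Fin (s + 1) → ℤ)
    (hx : ∀ l, x ∉ Pool.Agent.N763.RO.Bad (h l) (∏ l' ∈ Finset.univ.erase l, h l') D)
    {e : Fin ((q - 1) * 2 ^ q + 1) → α → ℕ} {a' : Fin ((q - 1) * 2 ^ q + 1) → Fin q → ℕ}
    (hea : GoodExp q β e a') : SpreadE q D β (prodVal h x e) (prodVal h x a') := by
  classical
  have h1 : ∀ l, ∃ p : ℕ, p.Prime ∧ D < p ∧ Pool.Agent.N514.TH.Ok (h l)
      (∏ l' ∈ Finset.univ.erase l, h l') p x := by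
    intro l
    have h2 := hx l
    unfold Pool.Agent.N763.RO.Bad at h2
    rwa [Set.mem_ofPred_eq, not_not] at h2
  choose p hp hD hok using h1
  have hoth : ∀ l l', l' ≠ l → ¬ (p l : ℤ) ∣ ev (x 0) (fun i => x i.succ) (h l') := by
    intro l l' hne hdvd
    apply (hok l).2.2
    rw [map_prod]
    exact hdvd.trans (Finset.dvd_prod_of_mem _ (Finset.mem_erase.2 ⟨hne, Finset.mem_univ _⟩))
  have hfac : ∀ {α' : Type} (e' : Fin ((q - 1) * 2 ^ q + 1) → α' → ℕ) l i,
      (prodVal h x e' i).factorization (p l) = e' l i := by
    intro α' e' l i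
    refine fact_prod (fun l' => e' l' i) l (hp l) ?_ ?_ ?_
    · exact Int.natCast_dvd.mp (hok l).1
    · intro hd
      apply (hok l).2.1
      have := Int.natCast_dvd.mpr hd
      push_cast at this
      exact this
    · intro l' hl' hd
      exact hoth l l' hl' (Int.natCast_dvd.mpr hd)
  have hne : ∀ l, ev (x 0) (fun i => x i.succ) (h l) ≠ 0 := by
    intro l h0
    apply (hok l).2.1
    rw [h0]
    exact dvd_zero _
  refine ⟨fun j => Finset.prod_ne_zero_iff.2 fun l _ => pow_ne_zero _ (Int.natAbs_ne_zero.2 (hne l)),
    p, fun l => ⟨hp l, hD l⟩, fun l i => ?_, fun l i j hij => ?_,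
    fun I hI b hb => hea.2.2 I hI b fun l hl => ?_⟩
  · rw [hfac]
    exact hea.1 l i
  · rw [hfac, hfac]
    exact hea.2.1 l i j hij
  · rw [← hb l hl]
    refine Finset.sum_congr rfl fun j _ => ?_
    rw [hfac]

universe u

/-- Zilber-Pink and Mordell-Lang, with no atypical intersections, for the scaled images of projective
sets in split semiabelian varieties along almost all random orbits, for all data simultaneously and at
all times outside of one set of density zero, with finitely many further exceptions. -/
theorem result (ι : Type) [Fintype ι] [DecidableEq ι] (hι : 2 ≤ Fintype.card ι) (W : Walk ι)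
    (v : ι → ℤ) (hv : v ≠ 0) :
    ∀ᵐ w ∂(words W.m), ∃ E : Set ℕ,
      Tendsto (fun N : ℕ => (({n : ℕ | n < N ∧ n ∈ E}.ncard : ℕ) : ℝ) / (N : ℝ)) atTop (𝓝 0) ∧
      ∀ (κ : Type u) (K : Subfield ℂ) [Countable K] (N r q m : ℕ) (A B : Fin r → ℂ)
        (_ : ∀ g, A g ∈ K) (_ : ∀ g, B g ∈ K) (n : Fin r → ℕ)
        (G : κ → MvPolynomial (Fin (N + 1)) K) (na nb : Ind n q → MvPolynomial (Fin (N + 1)) K)
        (dg : Ind n q → ℕ) (_ : IsMap G na nb dg m)
        (Γe : ∀ g, Finset (crv (A g) (B g)).Point) (_ : ∀ g, ∀ P ∈ Γe g, Rat K P)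
        (Γm : Finset ℂˣ) (_ : ∀ γ ∈ Γm, (γ : ℂ) ∈ K),
        ∃ M : ℕ, ∀ β : ℕ, β.Prime → M < β →
          ∀ (s : ℕ) (j : Fin (s + 1) → ι), Function.Injective j →
          ∀ h : Fin ((q - 1) * 2 ^ q + 1) → Polynomial (MvPolynomial (Fin s) ℤ),
            (∀ l, (h l).natDegree = 1) → (∀ l l', l ≠ l' → CoprimeTo (h l) (h l')) →
          ∀ (e : Fin ((q - 1) * 2 ^ q + 1) → (g : Fin r) × Fin (n g) → ℕ)
            (a' : Fin ((q - 1) * 2 ^ q + 1) → Fin q → ℕ), GoodExp q β e a' →
            {t : ℕ | t ∉ E ∧ ¬ ∀ c : Ind n q → ℂ,
              IsScaling β c (prodVal h (fun i => orb W v w t (j i)) e)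
                (prodVal h (fun i => orb W v w t (j i)) a') →
                NoAtypical K Γe Γm m (scaled (A := A) (B := B) G na nb c)}.Finite := by
  classical
  filter_upwards [Pool.Agent.N763.RO.engine Pool.Agent.N24.RW.crit Pool.Agent.N24.RW.clo
    Pool.Agent.N24.RW.main hι W v hv] with w hw
  obtain ⟨E, hE, hfin⟩ := hw
  refine ⟨E, hE, ?_⟩
  intro κ K _ N r q m A B hA hB n G na nb dg hY Γe hΓe Γm hΓm
  obtain ⟨M, D, C, hMD⟩ := Pool.Agent.Results.MP_dd1803_nt.EllipticScaledImages.result K N r q m A B
    hA hB n G na nb dg hY Γe hΓe Γm hΓm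
  refine ⟨M, fun β hβ hMβ s j hj h hdeg hcop e a' hea => ?_⟩
  have hgood := (hMD β hβ hMβ).1
  have h1 : (⋃ l, {t : ℕ | t ∉ E ∧ (fun i => orb W v w t (j i)) ∈
      Pool.Agent.N763.RO.Bad (h l) (∏ l' ∈ Finset.univ.erase l, h l') D}).Finite := by
    refine Set.finite_iUnion fun l => ?_
    exact hfin { s := s, j := ⟨j, hj⟩, h := h l, G := ∏ l' ∈ Finset.univ.erase l, h l', deg := hdeg l,
                 cop := coprime_prod _ _ fun l' hl' => hcop l l' (Finset.ne_of_mem_erase hl').symm } D
  refine h1.subset ?_
  rintro t ⟨ht, hbad⟩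
  by_contra hcon
  rw [Set.mem_iUnion] at hcon
  push Not at hcon
  refine hbad fun c hc => hgood c _ _ hc (spread_of h _ (fun l hl => hcon l ⟨ht, hl⟩) hea)

end Pool.Agent.Results.MP_dd1803_nt.ScaledImagesRandomOrbits
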